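import Mathlib
import Pool.Agent.Q250.RP.Main

/-!
# In every Galois orbit of odd characters at most about half of the indices are irregular

An index `k`, `1 ≤ k ≤ (p - 3) / 2`, of the prime `p` is irregular if `p` divides the numerator of
`B_{2k}`; the prime is regular if it has no irregular index. The index `k` belongs to the odd
character `ω ^ (2k - 1)` modulo `p`, whose order is `(p - 1) / gcd (2k - 1, p - 1)`, so the numbers
`d = gcd (2k - 1, p - 1)` (the odd divisors of `p - 1`) divide the indices into Galois orbits. We show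
that for every prime `p` and each orbit the number `r` of its irregular indices satisfies
`p ^ r ≤ (√p (1 + log p)) ^ φ((p - 1) / d)` (with one more factor `p` for `d = 1`); so at most about
half of the indices of each orbit are irregular.

Proof. Let `m = (p - 1) / d` and `S_χ = ∑_{a < p} a χ(a)`, `χ` odd of order `m`. The norm
`N = ∏_χ S_χ` from `ℚ(ζ_m)` to `ℚ` is a rational integer (the resultant of the cyclotomic polynomial
and `∑ (g ^ i mod p) X ^ i`, `g` a primitive root). It is not zero since `L(1, χ) ≠ 0`, and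
`|S_χ| ≤ p √p (1 + log p)` by the inequality of Pólya and Vinogradov. In the `p`-adic integers
`N = ∏ S_{ω^l}` over `l < p - 1` with `gcd (l, p - 1) = d`; here `p` divides `S_{ω^l}` if `l < p - 2`, and
`p ^ 2` divides it if `l = 2k - 1` and `p` divides `B_{2k}` (Voronoi's argument).
-/

set_option autoImplicit false

namespace Pool.Agent.Results.MP_a3a416_nt.HalfOfEveryOddOrbit

/-- The irregular indices `k` of `p` with `gcd (2k - 1, p - 1) = d`. -/
noncomputable def irregular (p d : ℕ) : Finset ℕ :=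
  (Finset.Icc 1 ((p - 3) / 2)).filter
    (fun k => Nat.gcd (2 * k - 1) (p - 1) = d ∧ (p : ℤ) ∣ (bernoulli (2 * k)).num)

/-- (1) For every prime `p ≥ 5` and every odd divisor `d` of `p - 1` the number `r` of irregular
indices `k` with `gcd (2k - 1, p - 1) = d` satisfies `p ^ r ≤ (√p (1 + log p)) ^ φ((p - 1) / d)`, with one
more factor `p` on the right if `d = 1`.
(2) For every `ε > 0` and all large primes `p`, uniformly in `d`, `r ≤ (1/2 + ε) φ((p - 1) / d)`.
(3) For every `m ≥ 2` and all large primes `p` with `p - 1 = d m`, `d` odd: `2 r ≤ φ(m)`.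
(4) If `p ≥ 13` is a prime with `p ≡ 5 mod 8` then `p` does not divide both numerators of
`B_{(p + 3) / 4}` and `B_{(3 p + 1) / 4}`. -/
theorem result :
    (∀ p : ℕ, p.Prime → 5 ≤ p → ∀ d : ℕ, Odd d → d ∣ p - 1 →
      (p : ℝ) ^ (irregular p d).card ≤
        (if d = 1 then (p : ℝ) else 1) * (√p * (1 + Real.log p)) ^ ((p - 1) / d).totient) ∧
    (∀ ε : ℝ, 0 < ε → ∃ P : ℕ, ∀ p : ℕ, p.Prime → P ≤ p → ∀ d : ℕ, Odd d → d ∣ p - 1 →
      ((irregular p d).card : ℝ) ≤ (1 / 2 + ε) * ((p - 1) / d).totient) ∧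
    (∀ m : ℕ, 2 ≤ m → ∃ P : ℕ, ∀ p : ℕ, p.Prime → P ≤ p → ∀ d : ℕ, Odd d → d * m = p - 1 →
      2 * (irregular p d).card ≤ m.totient) ∧
    (∀ p : ℕ, p.Prime → 13 ≤ p → p % 8 = 5 →
      ¬ ((p : ℤ) ∣ (bernoulli ((p + 3) / 4)).num ∧ (p : ℤ) ∣ (bernoulli ((3 * p + 1) / 4)).num)) := by
  have h1 : ∀ p : ℕ, p.Prime → 5 ≤ p → ∀ d : ℕ, Odd d → d ∣ p - 1 →
      (p : ℝ) ^ (irregular p d).card ≤
        (if d = 1 then (p : ℝ) else 1) * (√p * (1 + Real.log p)) ^ ((p - 1) / d).totient := by
    intro p hp hp5 d hd hdvd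
    have : Fact p.Prime := ⟨hp⟩
    exact Pool.Agent.Q250.RP.bound p hp5 d ((p - 1) / d) (Nat.mul_div_cancel' hdvd) hd
  refine ⟨h1, Pool.Agent.Q250.RP.half_orb, Pool.Agent.Q250.RP.half_fixed, ?_⟩
  intro p hp hp13 h8 ⟨hA, hB⟩
  obtain ⟨t, ht⟩ : ∃ t, p = 8 * t + 5 := ⟨p / 8, by omega⟩
  have hd : (p - 1) / 4 = 2 * t + 1 := by omega
  have hdvd : 2 * t + 1 ∣ p - 1 := ⟨4, by omega⟩
  have hm : (p - 1) / (2 * t + 1) = 4 := by
    rw [show p - 1 = (2 * t + 1) * 4 by omega]
    exact Nat.mul_div_cancel_left _ (by omega)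
  have hb := h1 p hp (by omega) (2 * t + 1) ⟨t, rfl⟩ hdvd
  rw [hm, if_neg (by omega), one_mul] at hb
  have h4 : Nat.totient 4 = 2 := by decide
  rw [h4] at hb
  have hsub : ({t + 1, 3 * t + 2} : Finset ℕ) ⊆ irregular p (2 * t + 1) := by
    intro k hk
    rw [Finset.mem_insert, Finset.mem_singleton] at hk
    rw [irregular, Finset.mem_filter, Finset.mem_Icc]
    have hp1 : p - 1 = (2 * t + 1) * 4 := by omega
    rcases hk with rfl | rfl
    · refine ⟨⟨by omega, by omega⟩, ?_, ?_⟩
      · rw [hp1, show 2 * (t + 1) - 1 = (2 * t + 1) * 1 by omega, Nat.gcd_mul_left]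
        norm_num
      · rw [show (p + 3) / 4 = 2 * (t + 1) by omega] at hA
        exact hA
    · refine ⟨⟨by omega, by omega⟩, ?_, ?_⟩
      · rw [hp1, show 2 * (3 * t + 2) - 1 = (2 * t + 1) * 3 by omega, Nat.gcd_mul_left]
        norm_num
      · rw [show (3 * p + 1) / 4 = 2 * (3 * t + 2) by omega] at hB
        exact hB
  have hcard := Finset.card_le_card hsub
  rw [Finset.card_pair (by omega)] at hcard
  have hp1 : (1 : ℝ) ≤ p := by exact_mod_cast hp.one_le
  have h5 : (p : ℝ) ^ 2 ≤ (√p * (1 + Real.log p)) ^ 2 :=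
    (pow_le_pow_right₀ hp1 hcard).trans hb
  rw [mul_pow, Real.sq_sqrt (by linarith), sq] at h5
  have h6 : (p : ℝ) ≤ (1 + Real.log p) ^ 2 := le_of_mul_le_mul_left h5 (by linarith)
  -- `(1 + log x) ^ 2 < x` for `x ≥ 13`
  have h13 : (13 : ℝ) ≤ p := by exact_mod_cast hp13
  have h7 : Real.log p ≤ Real.log 13 + (2 / √13) * (√p - √13) := by
    have h8' : Real.log p = Real.log 13 + 2 * Real.log (√p / √13) := by
      rw [Real.log_div (by positivity) (by positivity), Real.log_sqrt (by linarith),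
        Real.log_sqrt (by norm_num)]
      ring
    have h9 : Real.log (√p / √13) ≤ √p / √13 - 1 := Real.log_le_sub_one_of_pos (by positivity)
    rw [h8']
    have h10 : (2 / √13) * (√p - √13) = 2 * (√p / √13 - 1) := by
      have : √(13 : ℝ) ≠ 0 := by positivity
      field_simp
    rw [h10]
    linarith
  have hs13 : (3.605 : ℝ) < √13 := by
    rw [Real.lt_sqrt (by norm_num)]
    norm_num
  have hlog13 : Real.log 13 < 2.59 := by
    have h11 : Real.log 13 = Real.log (13 / 16) + 4 * Real.log 2 := by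
      rw [show (4 : ℝ) * Real.log 2 = Real.log (2 ^ 4) by rw [Real.log_pow]; norm_num,
        ← Real.log_mul (by norm_num) (by norm_num)]
      norm_num
    have h12 : Real.log (13 / 16) ≤ 13 / 16 - 1 := Real.log_le_sub_one_of_pos (by norm_num)
    have h13' := Real.log_two_lt_d9
    rw [h11]
    linarith
  have hs : √13 ≤ √(p : ℝ) := Real.sqrt_le_sqrt h13
  have hq : 2 / √13 ≤ 0.56 := by
    rw [div_le_iff₀ (by positivity)]
    linarith
  have h14 : 1 + Real.log p < √p := by
    have : (2 / √13) * (√p - √13) ≤ 0.56 * (√p - √13) :=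
      mul_le_mul_of_nonneg_right hq (by linarith)
    linarith
  have hlp : 0 ≤ Real.log p := Real.log_natCast_nonneg p
  have h15 : (1 + Real.log p) ^ 2 < √p ^ 2 := by
    apply pow_lt_pow_left₀ h14 (by linarith) (by norm_num)
  rw [Real.sq_sqrt (by linarith)] at h15
  linarith

end Pool.Agent.Results.MP_a3a416_nt.HalfOfEveryOddOrbit
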