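import Mathlib
import Pool.Agent.Q146.RI.Match

/-!
# Matchings and sum sets of regular indices in residue classes

Call `k`, `1 ≤ k ≤ (p - 3) / 2`, a regular index of the prime `p` if `p` does not divide the numerator
of `B_{2k}`, and a strongly regular index if `p` does not divide `4 ^ k - 1` either. (The prime `p ≥ 5`
is regular if all its indices are regular.) Let `d ≥ 2` and `p > d ^ φ(2d)`.

1. Let `n ≥ 1` and let `R` be such that `2 ^ d (d (n - 1) + 1) ≤ m` and
   `2 ^ d (max (0, 2 d (n - 2) + 2 t) + 1) ≤ 2 m < p` for `m = d (n - 1 + R) + t`. Then there are `n`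
   different numbers `σ(0), …, σ(n-1) < R` such that all the numbers `d (σ(j) + j) + t` are strongly
   regular indices.
2. For a residue class `c`, `0 ≤ c ≤ d`, only the first of the two lower bounds for `R` is needed; it
   holds for `R ≥ (2 ^ d - 1) (n - 1) + 2 ^ d`. If `I ⊆ [0, R)`, `J ⊆ [0, n)` then there are
   `|I| + |J| - R` disjoint pairs `(i, j) ∈ I × J` with `d (i + j) + c` strongly regular. So for
   `|I| + |J| > R` the irregular indices do not contain `c + d (I + J)`.

The case `d = 1`, `R = n` is `PermutationsOfIndices` of this problem, the case `n = 1` is essentially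
`ResidueClasses` (one regular index in each class).

Outline. The `R × n` matrix `((1 - 4 ^ m) B_{2m} / (2m)!)`, `m = d (i + j) + t`, has independent columns
modulo `p`: a vector in the kernel gives a polynomial `V` in `x ^ (2d)` such that `V G` is a polynomial
`U` of small degree up to a high order, where `G` is the part of `x / (e^x + 1) - x / 2` with exponents
`2m`, `m ≡ t mod d`, plus a multiple of `x`. Now `G` is a quotient of exponential polynomials with the
`2 ^ d` frequencies `∑_{j ∈ J} η^j`, `η^d = -1`, which are not zero for `J ≠ ∅`; by the zero estimate of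
`ResidueClasses` the polynomial coefficient of frequency zero vanishes, that is `U = S x V` with
`S = ∑_j η^{(2r+1)j}`, whereas the odd part of `V G` is `(S / 2) x V`. Hall's theorem gives `σ`.
-/

set_option autoImplicit false

namespace Pool.Agent.Results.MP_a3a416_nt.MatchingsInClasses

open Finset

/-- `p` divides neither the numerator of `B_{2k}` nor `4 ^ k - 1`. -/
def StronglyRegular (p k : ℕ) : Prop :=
  ¬ ((p : ℤ) ∣ (bernoulli (2 * k)).num) ∧ ¬ (p ∣ 4 ^ k - 1)

/-- the entries -/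
noncomputable def ent (p : ℕ) [Fact p.Prime] (k : ℕ) : ZMod p :=
  (1 - 2 ^ (2 * k)) * Pool.Agent.H332R2.cc p (2 * k)

lemma strong_of_ne {p : ℕ} [Fact p.Prime] {k : ℕ} (hk : 2 * k + 2 ≤ p) (h3 : 3 ≤ p)
    (h : ent p k ≠ 0) : StronglyRegular p k := by
  unfold ent at h
  refine ⟨fun h1 => h ?_, fun h1 => h ?_⟩
  · rw [(Pool.Agent.H332R2.cc_eq_zero_iff hk h3).2 h1, mul_zero]
  · have h4 : ((4 ^ k - 1 : ℕ) : ZMod p) = 0 := (ZMod.natCast_eq_zero_iff _ _).2 h1
    rw [Nat.cast_sub (Nat.one_le_pow _ _ (by norm_num))] at h4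
    push_cast at h4
    have h5 : (2 : ZMod p) ^ (2 * k) = 4 ^ k := by rw [pow_mul]; norm_num
    rw [h5, show (1 : ZMod p) - 4 ^ k = -(4 ^ k - 1) by ring, h4]
    simp

/-- Hall's theorem for a matrix with independent columns -/
lemma hall {F : Type} [Field F] {n R : ℕ} (e : Fin R → Fin n → F)
    (h : ∀ v : Fin n → F, (∀ i, ∑ j, v j * e i j = 0) → v = 0) :
    ∃ σ : Fin n → Fin R, Function.Injective σ ∧ ∀ j, e (σ j) j ≠ 0 := by
  classical
  have key := (Finset.all_card_le_biUnion_card_iff_exists_injective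
    (fun j : Fin n => (Finset.univ : Finset (Fin R)).filter (fun i => e i j ≠ 0))).1 ?_
  · obtain ⟨σ, hσ, hσ2⟩ := key
    exact ⟨σ, hσ, fun j => (Finset.mem_filter.1 (hσ2 j)).2⟩
  · intro s
    by_contra hlt
    rw [not_le] at hlt
    set T := s.biUnion (fun j : Fin n => (Finset.univ : Finset (Fin R)).filter (fun i => e i j ≠ 0))
      with hT
    let φ : (s → F) →ₗ[F] (T → F) :=
      { toFun := fun v i => ∑ j : s, v j * e i j
        map_add' := by
          intro v w
          funext i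
          simp only [Pi.add_apply, add_mul, Finset.sum_add_distrib]
        map_smul' := by
          intro c v
          funext i
          simp only [Pi.smul_apply, smul_eq_mul, RingHom.id_apply, Finset.mul_sum, mul_assoc] }
    have hker : LinearMap.ker φ ≠ ⊥ := by
      apply LinearMap.ker_ne_bot_of_finrank_lt
      rw [Module.finrank_fintype_fun_eq_card, Module.finrank_fintype_fun_eq_card, Fintype.card_coe,
        Fintype.card_coe]
      exact hlt
    obtain ⟨v, hv, hv0⟩ := Submodule.exists_mem_ne_zero_of_ne_bot hker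
    apply hv0
    have hsum : ∀ (g : Fin n → F), ∑ j, (if hj : j ∈ s then v ⟨j, hj⟩ else 0) * g j =
        ∑ j : s, v j * g j := by
      intro g
      rw [← Finset.sum_subset (Finset.subset_univ s)]
      · rw [← Finset.sum_coe_sort s]
        refine Finset.sum_congr rfl fun j _ => ?_
        rw [dif_pos j.2]
      · intro j _ hj
        rw [dif_neg hj, zero_mul]
    have h1 := h (fun j => if hj : j ∈ s then v ⟨j, hj⟩ else 0) (by
      intro i
      rw [hsum]
      by_cases hi : i ∈ T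
      · have := congrFun (LinearMap.mem_ker.1 hv) ⟨i, hi⟩
        exact this
      · refine Finset.sum_eq_zero fun j _ => ?_
        have : e i j = 0 := by
          by_contra hne
          exact hi (Finset.mem_biUnion.2 ⟨j, j.2, Finset.mem_filter.2 ⟨Finset.mem_univ _, hne⟩⟩)
        rw [this, mul_zero])
    funext j
    have h2 := congrFun h1 (j : Fin n)
    simp only [Pi.zero_apply] at h2
    rw [dif_pos j.2] at h2
    exact h2

/-- **Matchings.** -/
theorem matching (p : ℕ) (hp : p.Prime) (d : ℕ) (hd : 1 ≤ d) (hpd : d ^ Nat.totient (2 * d) < p)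
    (t n R : ℕ) (hn : 1 ≤ n)
    (hM1 : 2 ^ d * (d * (n - 1) + 1) ≤ d * (n - 1 + R) + t)
    (hM2 : 2 ^ d * (2 * (d * (n - 1) + t) - 2 * d + 1) ≤ 2 * (d * (n - 1 + R) + t))
    (hMp : 2 * (d * (n - 1 + R) + t) < p) :
    ∃ σ : Fin n → Fin R, Function.Injective σ ∧ ∀ j : Fin n,
      StronglyRegular p (d * ((σ j : ℕ) + j) + t) := by
  have : Fact p.Prime := ⟨hp⟩
  have h2d : 2 ≤ 2 ^ d := by
    calc 2 = 2 ^ 1 := by norm_num
      _ ≤ 2 ^ d := Nat.pow_le_pow_right (by norm_num) hd
  have hp3 : 3 ≤ p := by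
    have : 2 * 1 ≤ 2 ^ d * (d * (n - 1) + 1) := Nat.mul_le_mul h2d (by omega)
    omega
  obtain ⟨K, _, _, eta, h1, h2, h3⟩ := Pool.Agent.H582R5.RP.c p d hp hd hpd
  let _ : Algebra (ZMod p) K := ZMod.algebra K p
  -- the class
  obtain ⟨r, hr⟩ : ∃ r : ℕ, d ∣ t + r := ⟨(d - 1) * t, ⟨t, by
    obtain ⟨e, rfl⟩ : ∃ e, d = e + 1 := ⟨d - 1, by omega⟩
    rw [Nat.add_sub_cancel]; ring⟩⟩
  set D := max (2 * (d * (n - 1)) + 1) (2 * (d * (n - 1) + t) - 2 * d) with hD
  have hDM : 2 ^ d * (D + 1) ≤ 2 * (d * (n - 1 + R) + t) := by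
    rcases le_total (2 * (d * (n - 1)) + 1) (2 * (d * (n - 1) + t) - 2 * d) with h | h
    · rw [hD, max_eq_right h]; exact hM2
    · rw [hD, max_eq_left h]
      calc 2 ^ d * (2 * (d * (n - 1)) + 1 + 1) = 2 * (2 ^ d * (d * (n - 1) + 1)) := by ring
        _ ≤ _ := Nat.mul_le_mul_left _ hM1
  have hD1 : 2 * (d * (n - 1)) + 1 ≤ D := le_max_left _ _
  have hD2 : 2 * (d * (n - 1)) + 2 * t ≤ D + 2 * d := by
    have := le_max_right (2 * (d * (n - 1)) + 1) (2 * (d * (n - 1) + t) - 2 * d)
    rw [← hD] at this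
    omega
  obtain ⟨σ, hσ, hσ2⟩ := hall (F := ZMod p)
    (fun (i : Fin R) (j : Fin n) => ent p (d * ((i : ℕ) + j) + t)) (by
    intro v hv
    set w : ℕ → K := fun j => if hj : j < n then algebraMap (ZMod p) K (v ⟨j, hj⟩) else 0 with hw
    have hker := Pool.Agent.Q146.RI.kernel p K eta d r n R t D hd hn hr h1 h2 h3 hD1 hD2 hDM
      (by omega) w (by
        intro i hi
        have h4 := congrArg (algebraMap (ZMod p) K) (hv ⟨i, hi⟩)
        rw [map_zero, map_sum, ← Fin.sum_univ_eq_sum_range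
          (fun j => w j * algebraMap (ZMod p) K
      ((1 - 2 ^ (2 * (d * (i + j) + t))) * Pool.Agent.H332R2.cc p (2 * (d * (i + j) + t)))) n] at *
        rw [← h4]
        refine Finset.sum_congr rfl fun j _ => ?_
        rw [map_mul (algebraMap (ZMod p) K) (v j)]
        have h5 : w j = algebraMap (ZMod p) K (v j) := by
          simp only [hw]
          rw [dif_pos j.2]
        rw [h5]
        rfl)
    funext j
    have h5 := hker j j.2
    simp only [hw] at h5
    rw [dif_pos j.2] at h5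
    exact (map_eq_zero (algebraMap (ZMod p) K)).1 h5)
  refine ⟨σ, hσ, fun j => strong_of_ne ?_ hp3 (hσ2 j)⟩
  have h6 := (σ j).2
  have h7 := j.2
  have h8 : d * ((σ j : ℕ) + j) ≤ d * (n - 1 + R - 1) := Nat.mul_le_mul_left _ (by omega)
  have h9 : d * (n - 1 + R) = d * (n - 1 + R - 1) + d := by
    obtain ⟨e, he⟩ : ∃ e, n - 1 + R = e + 1 := ⟨n - 1 + R - 1, by omega⟩
    rw [he, Nat.add_sub_cancel]; ring
  omega

/-- **Matchings and sum sets of strongly regular indices in residue classes.** -/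
theorem result (p : ℕ) (hp : p.Prime) (d : ℕ) (hd2 : 2 ≤ d) (hpd : d ^ Nat.totient (2 * d) < p) :
    (∀ t n R : ℕ, 1 ≤ n →
      2 ^ d * (d * (n - 1) + 1) ≤ d * (n - 1 + R) + t →
      2 ^ d * (2 * (d * (n - 1) + t) - 2 * d + 1) ≤ 2 * (d * (n - 1 + R) + t) →
      2 * (d * (n - 1 + R) + t) < p →
      ∃ σ : Fin n → Fin R, Function.Injective σ ∧ ∀ j : Fin n,
        StronglyRegular p (d * ((σ j : ℕ) + j) + t)) ∧
    (∀ c n R : ℕ, c ≤ d → 1 ≤ n →
      2 ^ d * (d * (n - 1) + 1) ≤ d * (n - 1 + R) + c → 2 * (d * (n - 1 + R) + c) < p →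
      ∀ I J : Finset ℕ, I ⊆ range R → J ⊆ range n →
        ∃ (J' : Finset ℕ) (f : ℕ → ℕ), J' ⊆ J ∧ #I + #J ≤ #J' + R ∧ Set.InjOn f J' ∧
          ∀ j ∈ J', f j ∈ I ∧ StronglyRegular p (d * (f j + j) + c)) ∧
    (∀ c n R : ℕ, c ≤ d → 1 ≤ n →
      2 ^ d * (d * (n - 1) + 1) ≤ d * (n - 1 + R) + c → 2 * (d * (n - 1 + R) + c) < p →
      ∀ I J : Finset ℕ, I ⊆ range R → J ⊆ range n → R < #I + #J →
        ∃ i ∈ I, ∃ j ∈ J, StronglyRegular p (d * (i + j) + c)) := by
  classical
  have hd : 1 ≤ d := by omega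
  have h2 : ∀ c n R : ℕ, c ≤ d → 1 ≤ n →
      2 ^ d * (d * (n - 1) + 1) ≤ d * (n - 1 + R) + c → 2 * (d * (n - 1 + R) + c) < p →
      ∀ I J : Finset ℕ, I ⊆ range R → J ⊆ range n →
        ∃ (J' : Finset ℕ) (f : ℕ → ℕ), J' ⊆ J ∧ #I + #J ≤ #J' + R ∧ Set.InjOn f J' ∧
          ∀ j ∈ J', f j ∈ I ∧ StronglyRegular p (d * (f j + j) + c) := by
    intro c n R hc hn hM1 hMp I J hI hJ
    obtain ⟨σ, hσ, hσ2⟩ := matching p hp d hd hpd c n R hn hM1 (by
      calc 2 ^ d * (2 * (d * (n - 1) + c) - 2 * d + 1)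
          ≤ 2 ^ d * (2 * (d * (n - 1) + 1)) := Nat.mul_le_mul_left _ (by omega)
        _ = 2 * (2 ^ d * (d * (n - 1) + 1)) := by ring
        _ ≤ _ := Nat.mul_le_mul_left _ hM1) hMp
    set f : ℕ → ℕ := fun j => if hj : j < n then (σ ⟨j, hj⟩ : ℕ) else 0 with hf
    have hfn : ∀ j (hj : j < n), f j = σ ⟨j, hj⟩ := fun j hj => by simp only [hf]; rw [dif_pos hj]
    have hinj : Set.InjOn f J := by
      intro a ha b hb hab
      have ha' := Finset.mem_range.1 (hJ ha)
      have hb' := Finset.mem_range.1 (hJ hb)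
      rw [hfn a ha', hfn b hb'] at hab
      have := hσ (Fin.ext hab)
      exact congrArg Fin.val this
    refine ⟨J.filter (fun j => f j ∈ I), f, Finset.filter_subset _ _, ?_, ?_, ?_⟩
    · have h1 : #(J.image f) = #J := Finset.card_image_of_injOn hinj
      have h3 : J.image f ∪ I ⊆ range R := by
        refine Finset.union_subset ?_ hI
        intro x hx
        obtain ⟨j, hj, rfl⟩ := Finset.mem_image.1 hx
        rw [hfn j (Finset.mem_range.1 (hJ hj)), Finset.mem_range]
        exact (σ _).2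
      have h4 := Finset.card_le_card h3
      rw [Finset.card_range] at h4
      have h5 := Finset.card_union_add_card_inter (J.image f) I
      have h6 : J.image f ∩ I ⊆ (J.filter (fun j => f j ∈ I)).image f := by
        intro x hx
        obtain ⟨hx1, hx2⟩ := Finset.mem_inter.1 hx
        obtain ⟨j, hj, rfl⟩ := Finset.mem_image.1 hx1
        exact Finset.mem_image.2 ⟨j, Finset.mem_filter.2 ⟨hj, hx2⟩, rfl⟩
      have h7 := (Finset.card_le_card h6).trans Finset.card_image_le
      omega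
    · exact hinj.mono (by
        intro j hj
        exact (Finset.mem_filter.1 hj).1)
    · intro j hj
      obtain ⟨hj1, hj2⟩ := Finset.mem_filter.1 hj
      have hjn := Finset.mem_range.1 (hJ hj1)
      refine ⟨hj2, ?_⟩
      have := hσ2 ⟨j, hjn⟩
      rw [hfn j hjn]
      exact this
  refine ⟨fun t n R hn hM1 hM2 hMp => matching p hp d hd hpd t n R hn hM1 hM2 hMp, h2, ?_⟩
  intro c n R hc hn hM1 hMp I J hI hJ hIJ
  obtain ⟨J', f, h3, h4, -, h6⟩ := h2 c n R hc hn hM1 hMp I J hI hJ
  have h7 : 0 < #J' := by omega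
  obtain ⟨j, hj⟩ := Finset.card_pos.1 h7
  exact ⟨f j, (h6 j hj).1, j, h3 hj, (h6 j hj).2⟩

end Pool.Agent.Results.MP_a3a416_nt.MatchingsInClasses
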