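import Pool.Agent.Q39.HB.Hankel

/-!
# Permutations avoiding the irregular indices of a prime

Call `k`, `1 ≤ k ≤ (p - 3) / 2`, a regular index of the prime `p` if `p` does not divide the
numerator of `B_{2k}`, and a strongly regular index if `p` does not divide `4 ^ k - 1` either. (The
prime `p ≥ 5` is regular if all its indices are regular.) For every prime `p` and every
`n ≤ (p - 3) / 4` there is a permutation `σ` of `{1, …, n}` such that all the sums `i + σ(i)` are
strongly regular indices, and for every `n ≤ (p - 1) / 4` one such that all `i + σ(i) - 1` are.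
Consequently the irregular indices contain no sum set `I + J` of subsets `I`, `J` of `{1, …, n}`
with `|I| + |J| > n`, for instance no sum set `A + A` of a set `A` of more than `n / 2` integers
between `1` and `n`; more precisely there are `|I| + |J| - n` disjoint pairs
`(i, j) ∈ I × J` with `i + j` strongly regular.

Outline. The Hankel matrices `((1 - 4 ^ k) B_{2k} / (2k)!)`, `k = i + j` or `k = i + j - 1`, are
invertible modulo `p`: a vector in the kernel gives polynomials `P`, `Q` of degree at most `a` over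
`𝔽_p`, not both zero, with `e^x P + Q = O(x^(2a+2))`, `2 a + 2 < p`, which is impossible. Now expand
the determinant.
-/

set_option autoImplicit false

namespace Pool.Agent.Results.MP_a3a416_nt.PermutationsOfIndices

open Finset

/-- `k` is a strongly regular index of `p`: the prime `p` divides neither the numerator (in lowest
terms) of the Bernoulli number `B_{2k}` nor `4 ^ k - 1` -/
def StronglyRegular (p k : ℕ) : Prop :=
  ¬ ((p : ℤ) ∣ (bernoulli (2 * k)).num) ∧ ¬ (p ∣ 4 ^ k - 1)

/-- **Theorem.** Let `p` be a prime number.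
(1) For `4 n + 3 ≤ p` there is a permutation `σ` of `{1, …, n}` such that all `i + σ(i)` are
strongly regular indices (`Fin n` has the elements `0, …, n - 1`).
(2) For `4 n + 1 ≤ p` there is a permutation `σ` of `{1, …, n}` such that all `i + σ(i) - 1` are
strongly regular indices.
(3) Let `4 n + 3 ≤ p` and let `I`, `J` be subsets of `{1, …, n}`. There are a subset `I'` of `I` with
at least `|I| + |J| - n` elements and an injective map `f` from `I'` to `J` such that `i + f(i)` is a
strongly regular index for all `i ∈ I'`.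
(4) In particular `I + J` contains a strongly regular index if `|I| + |J| > n`. -/
theorem result (p : ℕ) (hp : p.Prime) :
    (∀ n : ℕ, 4 * n + 3 ≤ p → ∃ σ : Equiv.Perm (Fin n), ∀ i : Fin n,
      StronglyRegular p (((i : ℕ) + 1) + ((σ i : ℕ) + 1))) ∧
    (∀ n : ℕ, 4 * n + 1 ≤ p → ∃ σ : Equiv.Perm (Fin n), ∀ i : Fin n,
      StronglyRegular p (((i : ℕ) + 1) + ((σ i : ℕ) + 1) - 1)) ∧
    (∀ (n : ℕ) (I J : Finset ℕ), 4 * n + 3 ≤ p → I ⊆ Icc 1 n → J ⊆ Icc 1 n →
      ∃ (I' : Finset ℕ) (f : ℕ → ℕ), I' ⊆ I ∧ #I + #J ≤ #I' + n ∧ Set.InjOn f I' ∧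
        ∀ i ∈ I', f i ∈ J ∧ StronglyRegular p (i + f i)) ∧
    (∀ (n : ℕ) (I J : Finset ℕ), 4 * n + 3 ≤ p → I ⊆ Icc 1 n → J ⊆ Icc 1 n → n < #I + #J →
      ∃ i ∈ I, ∃ j ∈ J, StronglyRegular p (i + j)) := by
  have : Fact p.Prime := ⟨hp⟩
  have h1 : ∀ n : ℕ, 4 * n + 3 ≤ p → ∃ σ : Equiv.Perm (Fin n), ∀ i : Fin n,
      StronglyRegular p (((i : ℕ) + 1) + ((σ i : ℕ) + 1)) := by
    intro n hn
    obtain ⟨σ, hσ⟩ := Pool.Agent.Q39.HB.perm (p := p) 2 n (by norm_num) le_rfl (by omega)
    refine ⟨σ, fun i => ?_⟩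
    have := hσ i
    rwa [show 2 + (i : ℕ) + (σ i : ℕ) = ((i : ℕ) + 1) + ((σ i : ℕ) + 1) by ring] at this
  have h2 : ∀ n : ℕ, 4 * n + 1 ≤ p → ∃ σ : Equiv.Perm (Fin n), ∀ i : Fin n,
      StronglyRegular p (((i : ℕ) + 1) + ((σ i : ℕ) + 1) - 1) := by
    intro n hn
    obtain ⟨σ, hσ⟩ := Pool.Agent.Q39.HB.perm (p := p) 1 n le_rfl (by norm_num) (by omega)
    refine ⟨σ, fun i => ?_⟩
    have := hσ i
    rwa [show 1 + (i : ℕ) + (σ i : ℕ) = ((i : ℕ) + 1) + ((σ i : ℕ) + 1) - 1 by omega] at this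
  have h3 : ∀ (n : ℕ) (I J : Finset ℕ), 4 * n + 3 ≤ p → I ⊆ Icc 1 n → J ⊆ Icc 1 n →
      ∃ (I' : Finset ℕ) (f : ℕ → ℕ), I' ⊆ I ∧ #I + #J ≤ #I' + n ∧ Set.InjOn f I' ∧
        ∀ i ∈ I', f i ∈ J ∧ StronglyRegular p (i + f i) := by
    intro n I J hn hI hJ
    obtain ⟨σ, hσ⟩ := h1 n hn
    set f : ℕ → ℕ := fun i => if h : i - 1 < n then (σ ⟨i - 1, h⟩ : ℕ) + 1 else 0 with hf
    have hfI : ∀ i ∈ Icc 1 n, ∃ h : i - 1 < n, f i = (σ ⟨i - 1, h⟩ : ℕ) + 1 := by
      intro i hi
      rw [mem_Icc] at hi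
      refine ⟨by omega, ?_⟩
      rw [hf]
      simp only
      rw [dif_pos (by omega : i - 1 < n)]
    have hfm : ∀ i ∈ Icc 1 n, f i ∈ Icc 1 n := by
      intro i hi
      obtain ⟨h, he⟩ := hfI i hi
      rw [he, mem_Icc]
      have := (σ ⟨i - 1, h⟩).2
      omega
    have hinj : Set.InjOn f (Icc 1 n : Finset ℕ) := by
      intro i hi j hj hij
      rw [mem_coe] at hi hj
      obtain ⟨h, he⟩ := hfI i hi
      obtain ⟨h', he'⟩ := hfI j hj
      rw [he, he'] at hij
      have h4 : σ ⟨i - 1, h⟩ = σ ⟨j - 1, h'⟩ := Fin.ext (by omega)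
      have h5 := congrArg Fin.val (σ.injective h4)
      simp only at h5
      rw [mem_Icc] at hi hj
      omega
    refine ⟨I.filter fun i => f i ∈ J, f, filter_subset _ _, ?_, ?_, ?_⟩
    · have h4 : #(I.image f ∪ J) ≤ n := by
        have h5 : I.image f ∪ J ⊆ Icc 1 n := by
          refine union_subset ?_ hJ
          intro x hx
          rw [mem_image] at hx
          obtain ⟨i, hi, rfl⟩ := hx
          exact hfm i (hI hi)
        have h6 := card_le_card h5
        rwa [Nat.card_Icc, Nat.add_sub_cancel] at h6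
      have h5 : #(I.image f) = #I := card_image_of_injOn (hinj.mono (by exact_mod_cast hI))
      have h6 : #(I.image f ∩ J) ≤ #(I.filter fun i => f i ∈ J) := by
        have h7 : I.image f ∩ J ⊆ (I.filter fun i => f i ∈ J).image f := by
          intro x hx
          rw [mem_inter, mem_image] at hx
          obtain ⟨⟨i, hi, rfl⟩, hx2⟩ := hx
          exact mem_image_of_mem f (mem_filter.2 ⟨hi, hx2⟩)
        exact (card_le_card h7).trans card_image_le
      have h7 := card_union_add_card_inter (I.image f) J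
      omega
    · exact hinj.mono (by
        intro x hx
        rw [mem_coe, mem_filter] at hx
        exact hI hx.1)
    · intro i hi
      rw [mem_filter] at hi
      refine ⟨hi.2, ?_⟩
      obtain ⟨h, he⟩ := hfI i (hI hi.1)
      have h4 := hσ ⟨i - 1, h⟩
      have h5 := hI hi.1
      rw [mem_Icc] at h5
      rw [he]
      simp only [show i - 1 + 1 = i by omega] at h4
      exact h4
  refine ⟨h1, h2, h3, ?_⟩
  intro n I J hn hI hJ hcard
  obtain ⟨I', f, hI', h4, -, h5⟩ := h3 n I J hn hI hJ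
  have h6 : 0 < #I' := by omega
  obtain ⟨i, hi⟩ := card_pos.1 h6
  exact ⟨i, hI' hi, f i, (h5 i hi).1, (h5 i hi).2⟩

end Pool.Agent.Results.MP_a3a416_nt.PermutationsOfIndices
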