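import Pool.Agent.Q140.REG.Win

/-!
# Regular indices of a prime in short windows

Call `k`, `1 ≤ k ≤ (p - 3) / 2`, a regular index of the prime `p` if `p` does not divide the
numerator of `B_{2k}`, and a strongly regular index if `p` does not divide `4 ^ k - 1` either. (The
prime `p ≥ 5` is regular if all its indices are regular.) Let `e_k = (1 - 4^k) B_{2k} / (2k)!`.

For every prime `p` and all `T ≥ 2`, `n ≥ 1`, `R` with `T + n + R ≤ (p + 1) / 2` and `R` at least about
`2 √(n T)` (see `Room` and part 2) the `R × n` matrix `(e_{T+i+j})` has independent columns modulo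
`p`; that is, the terms `e_T, …, e_{T+R+n-2}` satisfy no linear recurrence of order `n - 1` modulo
`p`. Hence there are `n` different `σ(j) < R` such that all `T + j + σ(j)` are strongly regular, and
the irregular indices contain no set `T + I + J` with `I ⊆ [0, R)`, `J ⊆ [0, n)`, `|I| + |J| > R`.

Outline (`Pool/Agent/Q140/REG/Gap.lean`). Let `G = t / (e^t + 1)`. A vector in the kernel gives a
polynomial `V ≠ 0` in `t^2` of degree `≤ 2 (n - 1)` such that the coefficients of `S = V G` between
`t^a`, `a = 2 (T + n - 2)`, and `t^w` vanish. As `G^2 = t G' - (1 - t) G`, one has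
`m S^(m+1) = t V (S^m)' - m t V' S^m - m (1 - t) V S^m`, so also the powers `S^m` have a gap up to
`t^w`, beginning only `(m - 1) (2n - 1)` later, and by `e^t S = t V - S` so have the series
`S^m e^{jt}`, `j ≤ m`. For `m = N + 1` the polynomial `Q(x)`, the coefficient of `S^m e^{xt}` at
`t^w` (for `V = 1` a Nörlund polynomial), therefore has zeros of large multiplicity at the `m + 1`
points `0, 1, …, m`; but its degree is at most `w - m`.
-/

set_option autoImplicit false

namespace Pool.Agent.Results.MP_a3a416_nt.ShortWindows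

open Finset

/-- `k` is a strongly regular index of `p`: the prime `p` divides neither the numerator (in lowest
terms) of the Bernoulli number `B_{2k}` nor `4 ^ k - 1` -/
def StronglyRegular (p k : ℕ) : Prop :=
  ¬ ((p : ℤ) ∣ (bernoulli (2 * k)).num) ∧ ¬ (p ∣ 4 ^ k - 1)

/-- the number `e_k = (1 - 4^k) B_{2k} / (2k)!` modulo `p` (for `2k < p - 1` its denominator is prime
to `p`) -/
noncomputable def e (p k : ℕ) [Fact p.Prime] : ZMod p :=
  (((1 - 4 ^ k) * bernoulli (2 * k) / ((2 * k).factorial : ℚ) : ℚ) : ZMod p)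

/-- the window of length `R` at the height `T` is large enough for `n` columns -/
def Room (T n R : ℕ) : Prop :=
  ∃ M K : ℕ, 2 * (T - 1) ≤ M * K ∧ M * (2 * n - 1) + K ≤ 2 * R + 2

/-- **Theorem.** Let `p` be a prime number.
(1) Let `T ≥ 2`, `n ≥ 1`, `Room T n R` and `2 (T + n + R) ≤ p + 1`. Then (a) the matrix of the
`e_{T+i+j}`, `i < R`, `j < n`, has independent columns modulo `p`; (b) there are `n` different numbers
`σ 0, …, σ (n-1) < R` such that all `T + σ j + j` are strongly regular indices of `p`; (c) if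
`I ⊆ [0, R)` and `J ⊆ [0, n)` then there are a subset `J'` of `J` with at least `|I| + |J| - R`
elements and an injective map `f` from `J'` to `I` such that all `T + f(j) + j` are strongly regular;
(d) in particular `T + I + J` contains a strongly regular index if `|I| + |J| > R`.
(2) `Room T n R` holds if `2 n ≤ R + 2` and `2 (T - 1) (2 n - 1) ≤ (R + 1) (R + 3 - 2 n)`. -/
theorem result (p : ℕ) [hp : Fact p.Prime] :
    (∀ T n R : ℕ, 2 ≤ T → 1 ≤ n → Room T n R → 2 * (T + n + R) ≤ p + 1 →
      (∀ v : Fin n → ZMod p, v ≠ 0 → ∃ i < R, ∑ j : Fin n, v j * e p (T + i + j) ≠ 0) ∧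
      (∃ σ : Fin n → Fin R, Function.Injective σ ∧
        ∀ j : Fin n, StronglyRegular p (T + (σ j : ℕ) + (j : ℕ))) ∧
      (∀ I J : Finset ℕ, I ⊆ range R → J ⊆ range n →
        ∃ (J' : Finset ℕ) (f : ℕ → ℕ), J' ⊆ J ∧ #I + #J ≤ #J' + R ∧ Set.InjOn f J' ∧
          ∀ j ∈ J', f j ∈ I ∧ StronglyRegular p (T + f j + j)) ∧
      (∀ I J : Finset ℕ, I ⊆ range R → J ⊆ range n → R < #I + #J →
        ∃ i ∈ I, ∃ j ∈ J, StronglyRegular p (T + i + j))) ∧
    (∀ T n R : ℕ, 1 ≤ n → 2 * n ≤ R + 2 → 2 * (T - 1) * (2 * n - 1) ≤ (R + 1) * (R + 3 - 2 * n) →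
      Room T n R) := by
  classical
  refine ⟨?_, ?_⟩
  · intro T n R hT hn hRoom hpR
    obtain ⟨M, K, hMK, hR⟩ := hRoom
    have h3 : 3 ≤ p := by omega
    obtain ⟨σ, hσ, hσ2⟩ := Pool.Agent.Q140.REG.matching (p := p) T n R M K hT hn hMK hR hpR
    have hsr : ∀ j : Fin n, StronglyRegular p (T + (σ j : ℕ) + (j : ℕ)) := by
      intro j
      have h1 := (σ j).2
      have h2 := j.2
      exact Pool.Agent.Q39.HB.gg_ne_zero_iff (by omega) h3 (hσ2 j)
    have hc : ∀ I J : Finset ℕ, I ⊆ range R → J ⊆ range n →
        ∃ (J' : Finset ℕ) (f : ℕ → ℕ), J' ⊆ J ∧ #I + #J ≤ #J' + R ∧ Set.InjOn f J' ∧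
          ∀ j ∈ J', f j ∈ I ∧ StronglyRegular p (T + f j + j) := by
      intro I J hI hJ
      set f : ℕ → ℕ := fun j => if h : j < n then (σ ⟨j, h⟩ : ℕ) else 0 with hf
      have hfj : ∀ j (h : j < n), f j = (σ ⟨j, h⟩ : ℕ) := by
        intro j h
        rw [hf]
        simp only
        rw [dif_pos h]
      have hinj : Set.InjOn f (range n : Finset ℕ) := by
        intro x hx y hy hxy
        rw [mem_coe, mem_range] at hx hy
        rw [hfj x hx, hfj y hy] at hxy
        have := hσ (Fin.ext hxy)
        simpa using this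
      refine ⟨J.filter (fun j => f j ∈ I), f, filter_subset _ _, ?_, ?_, ?_⟩
      · have h1 : #(J.filter (fun j => f j ∉ I)) + #I ≤ R := by
          have h2 : #((J.filter (fun j => f j ∉ I)).image f ∪ I) ≤ #(range R) := by
            refine card_le_card (union_subset ?_ hI)
            intro x hx
            rw [mem_image] at hx
            obtain ⟨j, hj, rfl⟩ := hx
            have hj2 : j < n := mem_range.1 (hJ (mem_filter.1 hj).1)
            rw [hfj j hj2, mem_range]
            exact (σ ⟨j, hj2⟩).2
          rw [card_range, card_union_of_disjoint, card_image_of_injOn] at h2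
          · exact h2
          · intro x hx y hy hxy
            exact hinj (hJ (mem_filter.1 hx).1) (hJ (mem_filter.1 hy).1) hxy
          · rw [disjoint_left]
            intro x hx hxI
            rw [mem_image] at hx
            obtain ⟨j, hj, rfl⟩ := hx
            exact (mem_filter.1 hj).2 hxI
        have h2 := card_filter_add_card_filter_not (s := J) (fun j => f j ∈ I)
        omega
      · intro x hx y hy hxy
        exact hinj (hJ (mem_filter.1 hx).1) (hJ (mem_filter.1 hy).1) hxy
      · intro j hj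
        rw [mem_filter] at hj
        refine ⟨hj.2, ?_⟩
        have hj2 : j < n := mem_range.1 (hJ hj.1)
        have := hsr ⟨j, hj2⟩
        rw [hfj j hj2]
        exact this
    refine ⟨?_, ⟨σ, hσ, hsr⟩, hc, ?_⟩
    · intro v hv
      by_contra hcon
      push Not at hcon
      apply hv
      refine Pool.Agent.Q140.REG.window (p := p) T n R M K hT hn hMK hR hpR v fun i hi => ?_
      rw [← hcon i hi]
      refine Finset.sum_congr rfl fun j _ => ?_
      have hj := j.2
      unfold e
      rw [Pool.Agent.Q140.REG.gg_cast (by omega) h3]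
    · intro I J hI hJ hIJ
      obtain ⟨J', f, h1, h2, _, h4⟩ := hc I J hI hJ
      have h5 : 0 < #J' := by omega
      obtain ⟨j, hj⟩ := card_pos.1 h5
      exact ⟨f j, (h4 j hj).1, j, h1 hj, (h4 j hj).2⟩
  · intro T n R hn hnR h
    obtain ⟨x, hx⟩ : ∃ x, x = 2 * n - 1 := ⟨_, rfl⟩
    have hx1 : 1 ≤ x := by omega
    have e1 : R + 3 - 2 * n = R + 2 - x := by omega
    rw [← hx, e1] at h
    unfold Room
    rw [← hx]
    have hM := Nat.div_add_mod (R + 1) x
    have hmod := Nat.mod_lt (R + 1) hx1
    set M := (R + 1) / x with hMdef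
    have hMx : R + 2 - x ≤ M * x := by
      rw [mul_comm M x]; omega
    have hMx2 : M * x ≤ R + 1 := by
      rw [mul_comm M x]; omega
    refine ⟨M, R + 1, ?_, by omega⟩
    have h6 : 2 * (T - 1) * x ≤ M * (R + 1) * x := by
      calc 2 * (T - 1) * x ≤ (R + 1) * (R + 2 - x) := h
        _ ≤ (R + 1) * (M * x) := Nat.mul_le_mul_left _ hMx
        _ = M * (R + 1) * x := by ring
    exact Nat.le_of_mul_le_mul_right h6 hx1

end Pool.Agent.Results.MP_a3a416_nt.ShortWindows
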